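import Pool.Agent.Y489.GE.Stm

/-!
# Sides and energy of moved polygons
-/

set_option autoImplicit false

open Set Topology

namespace Pool.Agent.Y812.GE

open Pool.Agent.Y489.GE

theorem t_EN : S_EN := by
  intro X _ r m hm N _ δ hδ x hx t ht
  have hr : ∀ i, dist (x i) (x (i + 1)) ≤ r := fun i => (hx i).trans hδ
  have key : ∀ i, dist (ph m N t x i) (ph m N t x (i + 1)) ≤
      (1 - t) * dist (x i) (x (i + 1)) + t * dist (x (i + 1)) (x (i + 1 + 1)) := by
    intro i
    calc dist (ph m N t x i) (ph m N t x (i + 1)) ≤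
        dist (m (x i) (x (i + 1)) t) (x (i + 1)) +
          dist (x (i + 1)) (m (x (i + 1)) (x (i + 1 + 1)) t) := dist_triangle _ _ _
      _ = _ := by rw [hm.dist_right (hr i) ht, hm.dist_left (hr (i + 1)) ht]
  obtain ⟨t0, t1⟩ := ht
  constructor
  · intro i
    refine (key i).trans ?_
    have h1 : dist (x i) (x (i + 1)) ≤ δ := hx i
    have h2 : dist (x (i + 1)) (x (i + 1 + 1)) ≤ δ := hx (i + 1)
    have h3 := mul_le_mul_of_nonneg_left h1 (sub_nonneg.2 t1)
    have h4 := mul_le_mul_of_nonneg_left h2 t0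
    linarith
  · unfold En
    have h3 : ∑ i : ZMod N, dist (x (i + 1)) (x (i + 1 + 1)) ^ 2 =
        ∑ i : ZMod N, dist (x i) (x (i + 1)) ^ 2 :=
      Equiv.sum_comp (Equiv.addRight (1 : ZMod N)) (fun i => dist (x i) (x (i + 1)) ^ 2)
    calc ∑ i : ZMod N, dist (ph m N t x i) (ph m N t x (i + 1)) ^ 2 ≤
        ∑ i : ZMod N, ((1 - t) * dist (x i) (x (i + 1)) ^ 2 +
          t * dist (x (i + 1)) (x (i + 1 + 1)) ^ 2) := by
          refine Finset.sum_le_sum fun i _ => ?_
          have h4 := pow_le_pow_left₀ dist_nonneg (key i) 2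
          refine h4.trans ?_
          obtain ⟨a, ha⟩ : ∃ a, a = dist (x i) (x (i + 1)) := ⟨_, rfl⟩
          obtain ⟨b, hb⟩ : ∃ b, b = dist (x (i + 1)) (x (i + 1 + 1)) := ⟨_, rfl⟩
          rw [← ha, ← hb]
          have h5 : 0 ≤ t * (1 - t) * (a - b) ^ 2 :=
            mul_nonneg (mul_nonneg t0 (sub_nonneg.2 t1)) (sq_nonneg _)
          nlinarith
      _ = (1 - t) * ∑ i : ZMod N, dist (x i) (x (i + 1)) ^ 2 +
          t * ∑ i : ZMod N, dist (x (i + 1)) (x (i + 1 + 1)) ^ 2 := by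
          rw [Finset.sum_add_distrib, Finset.mul_sum, Finset.mul_sum]
      _ = _ := by rw [h3]; ring

end Pool.Agent.Y812.GE
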