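import Pool.Agent.Y489.GE.Stm

/-!
# The induction
-/

set_option autoImplicit false

open Set Topology

namespace Pool.Agent.Y812.GE

open Pool.Agent.Y489.GE

theorem al_ge {lam b : ℝ} (hlam : 1 ≤ lam) (hb : 0 ≤ b) (n : ℕ) : b ≤ al lam b n := by
  induction n with
  | zero => exact le_rfl
  | succ n ih =>
    change b ≤ lam * (al lam b n + b) + b
    have : 0 ≤ lam * (al lam b n + b) := by
      apply mul_nonneg (by linarith)
      linarith
    linarith

theorem t_REC : S_CP → S_STEP → S_REC := by
  intro hCP hSTEP X K _ _ p lam b q hlam hb hOm f A t ρ hD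
  obtain ⟨htc, ht0, hex, hρc, hρ, hρA⟩ := hD
  have main : ∀ n, n ≤ q → ∃ Γ : K → ℝ → X,
      ContinuousOn Γ {k | 0 < ∑ j ∈ Finset.range (n + 1), t j k} ∧
      (∀ k, 0 < ∑ j ∈ Finset.range (n + 1), t j k →
        Γ k ∈ Pa p (al lam b n) ∧ Γ k (al lam b n) = f k) ∧
      ∀ k ∈ A, 0 < ∑ j ∈ Finset.range (n + 1), t j k → Γ k = fun _ => p := by
    intro n
    induction n with
    | zero =>
      intro _
      refine ⟨ρ 0, ?_, ?_, ?_⟩
      · simpa using hρc 0
      · intro k hk
        rw [Finset.sum_range_one] at hk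
        exact hρ 0 k hk
      · intro k hA hk
        rw [Finset.sum_range_one] at hk
        exact hρA 0 k hA hk
    | succ n ih =>
      intro hn
      obtain ⟨Γ, h1, h2, h3⟩ := ih (by omega)
      have hal := al_ge hlam hb n
      have ha0 : 0 ≤ al lam b n := hb.trans hal
      have h4 : al lam b n + b ≤ lam * (al lam b n + b) := by
        nlinarith
      have hcp : CP p (al lam b n) b (al lam b (n + 1)) :=
        hCP X p (al lam b n) b (lam * (al lam b n + b)) ha0 hb h4 (hOm n (by omega))
      have h5 : al lam b (n + 1) = lam * (al lam b n + b) + b := rfl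
      obtain ⟨Γ', h6, h7, h8⟩ := hSTEP X K p (al lam b n) b (al lam b (n + 1)) ha0 hb
        (by rw [h5]; linarith) (al_ge hlam hb (n + 1)) hcp f A
        (fun k => ∑ j ∈ Finset.range (n + 1), t j k) (t (n + 1)) Γ (ρ (n + 1))
        (continuous_finsetSum _ fun j _ => htc j) (htc (n + 1))
        (fun k => Finset.sum_nonneg fun j _ => ht0 j k) (ht0 (n + 1)) h1 (hρc (n + 1)) h2
        (hρ (n + 1)) h3 (hρA (n + 1))
      refine ⟨Γ', ?_, ?_, ?_⟩
      · simpa only [Finset.sum_range_succ _ (n + 1)] using h6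
      · intro k hk
        rw [Finset.sum_range_succ _ (n + 1)] at hk
        exact h7 k hk
      · intro k hA hk
        rw [Finset.sum_range_succ _ (n + 1)] at hk
        exact h8 k hA hk
  obtain ⟨Γ, h1, h2, h3⟩ := main q le_rfl
  have hpos : ∀ k, 0 < ∑ j ∈ Finset.range (q + 1), t j k := by
    intro k
    obtain ⟨j, hj, hk⟩ := hex k
    exact lt_of_lt_of_le hk (Finset.single_le_sum (f := fun j => t j k) (fun i _ => ht0 i k)
      (Finset.mem_range.2 (by omega)))
  refine ⟨Γ, ?_, fun k => h2 k (hpos k), fun k hA => h3 k hA (hpos k)⟩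
  rw [← continuousOn_univ]
  refine h1.mono fun k _ => hpos k

end Pool.Agent.Y812.GE
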