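import Pool.Agent.Y489.GE.Stm

/-!
# Transport of polygons
-/

set_option autoImplicit false

open Set Topology

namespace Pool.Agent.Y812.GE

open Pool.Agent.Y489.GE

theorem isClosed_Polp (X : Type) [MetricSpace X] (N : ℕ) (δ : ℝ) (p : X) :
    IsClosed (Polp X N δ p) := by
  have h1 : Polp X N δ p = (⋂ i : ZMod N, {x : ZMod N → X | dist (x i) (x (i + 1)) ≤ δ}) ∩
      {x | x 0 = p} := by
    ext x
    simp [Polp, Pol]
  rw [h1]
  refine IsClosed.inter (isClosed_iInter fun i => ?_) ?_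
  · exact isClosed_le ((continuous_apply i).dist (continuous_apply (i + 1))) continuous_const
  · exact isClosed_eq (continuous_apply 0) continuous_const

theorem t_TR : S_LIFT → S_TR := by
  intro hL X G _ _ _ _ _ _ _ p lam hlip hsec hlam N _ δ hPol
  obtain ⟨c, H, hH, hHT, hH0', hH1', hHZ'⟩ := hPol
  have hH0 : ∀ (y : ↥(Pol X N δ)) (s : ℝ), s ≤ 0 → H y s = y.1 := hH0'
  have hH1 : ∀ (y : ↥(Pol X N δ)) (s : ℝ), 1 ≤ s → H y s = fun _ => c y := hH1'
  have hHZ : ∀ y : ↥(Pol X N δ), (∀ i, y.1 i = y.1 0) → ∀ s, H y s = y.1 := hHZ'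
  have hcomp : CompactSpace ↥(Polp X N δ p) :=
    isCompact_iff_compactSpace.1 (isClosed_Polp X N δ p).isCompact
  obtain ⟨u, hu⟩ : ∃ u : ↥(Polp X N δ p) → ↥(Pol X N δ), ∀ x, u x = ⟨x.1, x.2.1⟩ :=
    ⟨_, fun _ => rfl⟩
  have hu1 : ∀ x, (u x).1 = x.1 := fun x => by rw [hu]
  have hucont : Continuous u := by
    rw [continuous_induced_rng]
    have : (Subtype.val ∘ u) = Subtype.val := funext fun x => hu1 x
    rw [this]
    exact continuous_subtype_val
  have hHu : Continuous (fun z : ↥(Polp X N δ p) × ℝ => H (u z.1) z.2) :=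
    hH.comp ((hucont.comp continuous_fst).prodMk continuous_snd)
  obtain ⟨g, hg, hg0, hg1, hgp, hgZ⟩ := hL X G p lam hlip hsec ↥(Polp X N δ p)
    (fun x s => H (u x) s 0) ((continuous_apply (0 : ZMod N)).comp hHu)
    (fun x s hs => by
      rw [hH0 _ _ hs, hu1]
      exact x.2.2)
    (fun x s hs => by
      rw [hH1 _ _ hs, hH1 _ _ le_rfl])
  refine ⟨fun x s i => (g x s)⁻¹ • H (u x) s i, ?_, ?_, ?_, ?_, ?_⟩
  · refine continuous_pi fun i => ?_
    exact hg.inv.smul ((continuous_apply i).comp hHu)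
  · intro x s
    constructor
    · intro i
      refine (hlip _ _ _).trans ?_
      exact mul_le_mul_of_nonneg_left (hHT (u x) s i) hlam
    · change (g x s)⁻¹ • H (u x) s 0 = p
      rw [← hgp x s, inv_smul_smul]
  · intro x s hs
    funext i
    dsimp only
    rw [hg0 x s hs, inv_one, one_smul, hH0 _ _ hs, hu1]
  · intro x s hs
    funext i
    dsimp only
    have h1 := hgp x s
    rw [hH1 _ _ hs] at h1 ⊢
    rw [← h1, inv_smul_smul]
  · intro x hx s
    have h1 : ∀ s, H (u x) s = x.1 := by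
      intro s
      rw [← hu1 x]
      refine hHZ (u x) ?_ s
      intro i
      rw [hu1]
      rw [hx i, hx 0]
    have h2 : g x s = 1 := hgZ x (fun s => by
      rw [h1 s]
      exact hx 0) s
    funext i
    dsimp only
    rw [h2, inv_one, one_smul, h1 s]

end Pool.Agent.Y812.GE
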